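import Mathlib
import Pool.Agent.Run7.h847.Acyc

set_option autoImplicit false
set_option linter.unusedSectionVars false
set_option linter.unusedSimpArgs false

/-!
# Equations with coefficients in a left orderable subgroup
-/

namespace Run7.h847.EQ

open Monoid Run7.h847

/-- Theorem C for coefficients in a left orderable subgroup `C` of an arbitrary group `H`. -/
theorem thmC' {H : Type} [Group H] (C : Subgroup H)
    (hLO : ∃ _ : LinearOrder C, ∀ c a b : C, a < b → c * a < c * b)
    {n : ℕ} [NeZero n] (hn : 2 ≤ n) (e : ZMod n → Bool) (h : ZMod n → C)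
    (hred : ∀ i, ¬ (h i = 1 ∧ e (i + 1) = !e i))
    (hprim : ∀ d : ZMod n, d ≠ 0 → ¬ ∀ i, h (i + d) = h i ∧ e (i + d) = e i)
    (m : ℕ) (hm : 1 ≤ m) (a : H)
    (ha : (hh a : FF H Unit) ∈ Subgroup.normalClosure
      ({((List.range (m * n)).map fun j : ℕ =>
        (tB (e (j : ZMod n)) * hh (h (j : ZMod n) : H) : FF H Unit)).prod} :
          Set (FF H Unit))) :
    a = 1 := by
  obtain ⟨_, hLO⟩ := hLO
  -- a countable subgroup
  let H0 : Subgroup C := (FreeGroup.lift h).range
  have hcnt : Countable (FreeGroup (ZMod n)) := by
    have : Function.Surjective (FreeGroup.mk : List (ZMod n × Bool) → FreeGroup (ZMod n)) := by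
      intro x
      exact ⟨x.toWord, FreeGroup.mk_toWord⟩
    exact this.countable
  have hcnt0 : Countable H0 := (FreeGroup.lift h).rangeRestrict_surjective.countable
  let h0 : ZMod n → H0 := fun i => ⟨h i, ⟨FreeGroup.of i, by simp⟩⟩
  have hOA : OA H0 := OA_of_LO (G := H0) (by
    intro c a b hab
    exact hLO c a b hab)
  obtain ⟨Ω, _, z, hz, hac⟩ := exists_label (n := n) e h0 hOA (by
      rintro i ⟨h1, h2⟩
      exact hred i ⟨congrArg Subtype.val h1, h2⟩) (by
      intro d hd hcon
      apply hprim d hd
      intro i
      exact ⟨congrArg Subtype.val (hcon i).1, (hcon i).2⟩)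
  have hltr : ∀ L : List (ZMod n × Bool),
      ((((L.map (ltr h0)).prod : H0) : C) : H) = (L.map (ltr fun i => (h i : H))).prod := by
    intro L
    induction L with
    | nil => simp
    | cons c L ih =>
      rw [List.map_cons, List.prod_cons, List.map_cons, List.prod_cons, ← ih]
      rcases c with ⟨i, s⟩
      cases s <;> simp [ltr, h0]
  let D : Dat H Ω :=
    { n := n
      hn := hn
      e := e
      h := fun i => (h i : H)
      z := z
      zinj := hz
      m := m
      hm := hm
      acyc := by
        intro c L hprod
        apply hac c L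
        apply Subtype.ext
        apply Subtype.ext
        rw [hltr, hprod]
        rfl }
  have hR : D.R = ((List.range (m * n)).map fun j : ℕ =>
        (tB (e (j : ZMod n)) * hh (h (j : ZMod n) : H) : FF H Unit)).prod := by
    simp only [Dat.R, Dat.Bz, Dat.blk]
    congr 1
    apply List.map_congr_left
    intro j _
    simp only [zero_add]
    rfl
  rw [← hR] at ha
  exact D.thmA a ha

end Run7.h847.EQ
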