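import Mathlib
import Pool.Agent.Run7.h847.Final
import Pool.Agent.Run7.h847.EQ.ThmC

set_option autoImplicit false
set_option linter.unusedSectionVars false
set_option linter.unusedSimpArgs false

/-!
# Equations with coefficients in a left orderable subgroup: from elements to words
-/

namespace Run7.h847.EQ

open Monoid Run7.h847

section

variable {K : Type} [Group K]

/-- conjugate elements -/
def Cj (r s : FF K Unit) : Prop := ∃ g, r = g * s * g⁻¹

theorem Cj.trans {r s t : FF K Unit} (h : Cj r s) (h' : Cj s t) : Cj r t := by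
  obtain ⟨g, rfl⟩ := h
  obtain ⟨g', rfl⟩ := h'
  exact ⟨g * g', by group⟩

theorem Cj.rfl' (r : FF K Unit) : Cj r r := ⟨1, by group⟩

/-- product of blocks -/
def pb (l : List (Bool × K)) : FF K Unit := (l.map bv).prod

theorem pb_append (l l' : List (Bool × K)) : pb (l ++ l') = pb l * pb l' := by simp [pb]

theorem pb_cons (a : Bool × K) (l : List (Bool × K)) : pb (a :: l) = tB a.1 * hh a.2 * pb l := by
  simp [pb, bv]

theorem Cj_comm (x y : FF K Unit) : Cj (x * y) (y * x) := ⟨x, by group⟩

theorem exists_pb (r : FF K Unit) : ∃ (a : K) (l : List (Bool × K)), r = hh a * pb l := by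
  have hmul : ∀ (a b : K) (l l' : List (Bool × K)), ∃ (c : K) (l'' : List (Bool × K)),
      (hh a * pb l) * (hh b * pb l') = hh c * pb l'' := by
    intro a b l l'
    rcases List.eq_nil_or_concat l with rfl | ⟨l1, x, rfl⟩
    · refine ⟨a * b, l', ?_⟩
      simp [pb, hh, map_mul, mul_assoc]
    · refine ⟨a, l1 ++ (x.1, x.2 * b) :: l', ?_⟩
      rw [List.concat_eq_append, pb_append, pb_append, pb_cons, pb_cons]
      simp only [hh, map_mul, pb, List.map_nil, List.prod_nil, mul_one, mul_assoc]
  have htop := gen_top (H := K) (T := Unit)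
    { carrier := {r | ∃ (a : K) (l : List (Bool × K)), r = hh a * pb l}
      one_mem' := ⟨1, [], by simp [pb, hh]⟩
      mul_mem' := by
        rintro _ _ ⟨a, l, rfl⟩ ⟨b, l', rfl⟩
        exact hmul a b l l'
      inv_mem' := by
        rintro _ ⟨a, l, rfl⟩
        induction l generalizing a with
        | nil => exact ⟨a⁻¹, [], by simp [pb, hh]⟩
        | cons x l ih =>
          obtain ⟨c, l', hc⟩ := ih 1
          have e1 : (hh a * pb (x :: l))⁻¹ = (hh 1 * pb l)⁻¹ *
              ((hh (x.2)⁻¹ : FF K Unit) * pb [(!x.1, a⁻¹)]) := by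
            rw [pb_cons, pb_cons, tB_not]
            simp only [hh, map_inv, map_one, pb, List.map_nil, List.prod_nil, mul_one, one_mul]
            group
          rw [e1, hc]
          exact hmul _ _ _ _ } ?_ ?_ r
  · exact htop
  · intro h
    exact ⟨h, [], by simp [pb]⟩
  · rintro ⟨⟨⟩, s⟩
    refine ⟨1, [(s, 1)], ?_⟩
    simp [pb, bv, hh, tB]

/-- a shortest cyclic expression -/
theorem exists_short (r : FF K Unit) (hr : ∀ (g : FF K Unit) (a : K), r ≠ g * hh a * g⁻¹) :
    ∃ l : List (Bool × K), l ≠ [] ∧ Cj r (pb l) ∧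
      ∀ (U V : List (Bool × K)) (x y : Bool × K), l = U ++ V → V ++ U ≠ [] →
        (∃ W, V ++ U = x :: y :: W) → ¬ (x.2 = 1 ∧ y.1 = !x.1) := by
  classical
  have hex : ∃ k : ℕ, ∃ l : List (Bool × K), l.length = k ∧ Cj r (pb l) := by
    obtain ⟨a, l, hl⟩ := exists_pb r
    rcases List.eq_nil_or_concat l with rfl | ⟨l1, x, rfl⟩
    · exfalso
      apply hr 1 a
      rw [hl]; simp [pb]
    · refine ⟨_, l1 ++ [(x.1, x.2 * a)], rfl, ?_⟩
      have h1 : Cj r (pb (l1.concat x) * hh a) := by
        rw [hl]; exact Cj_comm _ _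
      have h2 : pb (l1.concat x) * hh a = pb (l1 ++ [(x.1, x.2 * a)]) := by
        rw [List.concat_eq_append, pb_append, pb_append, pb_cons, pb_cons]
        simp only [hh, map_mul, pb, List.map_nil, List.prod_nil, mul_one, mul_assoc]
      rw [← h2]
      exact h1
  obtain ⟨l, hl1, hl2⟩ := Nat.find_spec hex
  have hmin := fun k => Nat.find_min hex (m := k)
  refine ⟨l, ?_, hl2, ?_⟩
  · rintro rfl
    obtain ⟨g, hg⟩ := hl2
    apply hr g 1
    rw [hg]
    simp [pb, hh]
  · rintro U V x y rfl _ ⟨W, hW⟩ ⟨h1, h2⟩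
    have h3 : Cj r (pb (V ++ U)) := by
      refine hl2.trans ?_
      rw [pb_append, pb_append]
      exact Cj_comm _ _
    have hlen : (U ++ V).length = W.length + 2 := by
      have := congrArg List.length hW
      simp only [List.length_append, List.length_cons] at this ⊢
      omega
    have h4 : pb (V ++ U) = hh y.2 * pb W := by
      rw [hW, pb_cons, pb_cons, h1, h2, tB_not]
      simp only [hh, map_one, mul_one]
      group
    rw [h4] at h3
    have h5 : Cj r (pb W * hh y.2) := h3.trans (Cj_comm _ _)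
    rcases List.eq_nil_or_concat W with rfl | ⟨W1, z, rfl⟩
    · obtain ⟨g, hg⟩ := h5
      apply hr g y.2
      rw [hg]
      simp [pb]
    · have h6 : pb (W1.concat z) * hh y.2 = pb (W1 ++ [(z.1, z.2 * y.2)]) := by
        rw [List.concat_eq_append, pb_append, pb_append, pb_cons, pb_cons]
        simp only [hh, map_mul, pb, List.map_nil, List.prod_nil, mul_one, mul_assoc]
      rw [h6] at h5
      refine hmin (W1.length + 1) ?_ ⟨_, by simp, h5⟩
      rw [← hl1, hlen]
      simp

end

end Run7.h847.EQ
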