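import Mathlib
import Pool.Agent.Run7.h847.EQ.Main

set_option autoImplicit false
set_option linter.unusedSectionVars false
set_option linter.unusedSimpArgs false

/-!
# Equations with coefficients in a left orderable subgroup: the core
-/

namespace Run7.h847.EQ

open Monoid Run7.h847

section

variable {G : Type} [Group G] {C : Subgroup G}

/-- the inclusion -/
def io (C : Subgroup G) : FF C Unit →* FF G Unit :=
  Coprod.map C.subtype (MonoidHom.id (FreeGroup Unit))

theorem io_bv (p : Bool × C) : io C (bv p) = tB p.1 * hh (p.2 : G) := by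
  rcases p with ⟨s, c⟩
  cases s <;> simp [io, bv, tB, tt, hh]

theorem two_front {α : Type} (l : List α) (a b : α) (h0 : l[0]? = some a)
    (h1 : l[1]? = some b) : ∃ W, l = a :: b :: W := by
  rcases l with _ | ⟨a', _ | ⟨b', W⟩⟩
  · simp at h0
  · simp at h1
  · simp only [List.getElem?_cons_zero, List.getElem?_cons_succ, Option.some.injEq] at h0 h1
    exact ⟨W, by rw [h0, h1]⟩

theorem core' (hLO : ∃ _ : LinearOrder C, ∀ c a b : C, a < b → c * a < c * b)
    (l : List (Bool × C)) (hl : l ≠ [])
    (hcr : ∀ (U V : List (Bool × C)) (x y : Bool × C), l = U ++ V → V ++ U ≠ [] →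
        (∃ W, V ++ U = x :: y :: W) → ¬ (x.2 = 1 ∧ y.1 = !x.1)) (m : ℕ) (hm : 1 ≤ m)
    (x : G) (hx : (hh x : FF G Unit) ∈ Subgroup.normalClosure
      ({(io C (pb l)) ^ m} : Set (FF G Unit))) : x = 1 := by
  classical
  set n := l.length with hn
  have hnpos : 0 < n := List.length_pos_iff.mpr hl
  -- the periodic sequence
  let g : ℕ → Bool × C := fun j => l[j % n]'(Nat.mod_lt _ hnpos)
  have hgn : ∀ j, g (j + n) = g j := by
    intro j
    simp only [g, Nat.add_mod_right]
  have hg : ∀ j, ¬ ((g j).2 = 1 ∧ (g (j + 1)).1 = !(g j).1) := by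
    intro j
    rcases Nat.lt_or_ge 1 n with h2 | h2
    · set k := j % n with hk
      have hk' : k < n := Nat.mod_lt _ hnpos
      have hrot : l.rotate k = l.drop k ++ l.take k := List.rotate_eq_drop_append_take hk'.le
      have hlen : (l.rotate k).length = n := by rw [List.length_rotate]
      have h0 : (l.rotate k)[0]'(by omega) = g j := by
        rw [List.getElem_rotate]
        simp only [g, Nat.zero_add, hk, ← hn, Nat.mod_mod]
      have h1 : (l.rotate k)[1]'(by omega) = g (j + 1) := by
        rw [List.getElem_rotate]
        have e1 : (1 + k) % l.length = (j + 1) % n := by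
          rw [hk, ← hn, add_comm 1, Nat.mod_add_mod]
        simp only [g]
        congr 1
      refine hcr (l.take k) (l.drop k) (g j) (g (j + 1)) (List.take_append_drop k l).symm ?_ ?_
      · rw [← hrot]
        intro h3
        rw [h3] at hlen
        simp at hlen
        omega
      · rw [← hrot]
        refine two_front _ _ _ ?_ ?_
        · rw [← h0]
          exact List.getElem?_eq_getElem (by omega)
        · rw [← h1]
          exact List.getElem?_eq_getElem (by omega)
    · have h1 : n = 1 := by omega
      rintro ⟨-, h3⟩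
      have h4 := hgn j
      rw [h1] at h4
      rw [h4] at h3
      revert h3
      cases (g j).1 <;> decide
  -- minimal period
  have hex : ∃ d : ℕ, 0 < d ∧ ∀ j, g (j + d) = g j := ⟨n, hnpos, hgn⟩
  obtain ⟨hd1, hd2⟩ := Nat.find_spec hex
  have hmin := fun k => Nat.find_min hex (m := k)
  set d := Nat.find hex with hd
  clear_value d
  have hmul : ∀ (d : ℕ), (∀ j, g (j + d) = g j) → ∀ q j, g (j + q * d) = g j := by
    intro d hd q
    induction q with
    | zero => intro j; simp
    | succ q ih =>
      intro j
      rw [Nat.succ_mul, ← add_assoc, hd, ih]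
  have hdvd : d ∣ n := by
    rw [Nat.dvd_iff_mod_eq_zero]
    by_contra h0
    refine hmin (n % d) (Nat.mod_lt _ hd1) ⟨Nat.pos_of_ne_zero h0, ?_⟩
    intro j
    have h1 : n % d + (n / d) * d = n := by
      have := Nat.mod_add_div n d
      rw [mul_comm]; exact this
    have h2 := hmul d hd2 (n / d) (j + n % d)
    rw [add_assoc, h1, hgn] at h2
    exact h2.symm
  -- the product
  have hprod : ∀ m : ℕ, ((List.range (m * n)).map fun j : ℕ => io C (bv (g j))).prod =
      (io C (pb l)) ^ m := by
    intro m
    induction m with
    | zero => simp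
    | succ m ih =>
      rw [Nat.succ_mul, List.range_add, List.map_append, List.prod_append, ih, pow_succ]
      congr 1
      rw [pb, map_list_prod, List.map_map, List.map_map]
      congr 1
      apply List.ext_getElem
      · simp [hn]
      · intro i hi1 hi2
        simp only [List.getElem_map, List.getElem_range, Function.comp_apply]
        congr 2
        have hi : i < n := by simpa using hi1
        have h2 := hmul n hgn m i
        rw [add_comm] at h2
        rw [h2]
        simp only [g]
        congr 1
        exact Nat.mod_eq_of_lt hi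
  rcases Nat.lt_or_ge d 2 with hd3 | hd3
  · -- period one
    have h1 : d = 1 := by omega
    rw [h1] at hd2
    have h2 : ∀ j, g j = g 0 := by
      intro j
      induction j with
      | zero => rfl
      | succ j ih => rw [hd2, ih]
    obtain ⟨e0, h0⟩ : ∃ p : Bool × C, g 0 = p := ⟨_, rfl⟩
    let rt : FF G Unit →* G := Coprod.lift (MonoidHom.id G)
      (FreeGroup.lift fun _ => if e0.1 then (e0.2 : G)⁻¹ else (e0.2 : G))
    have h3 : rt (io C (bv (g 0))) = 1 := by
      rw [h0, io_bv]
      rcases e0 with ⟨s, c⟩
      cases s <;> simp [rt, tB, tt, hh]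
    have h4 : rt ((io C (pb l)) ^ m) = 1 := by
      rw [← hprod, map_list_prod, List.map_map]
      apply List.prod_eq_one
      intro y hy
      rw [List.mem_map] at hy
      obtain ⟨j, -, rfl⟩ := hy
      rw [Function.comp_apply, h2 j]
      exact h3
    have h5 : Subgroup.normalClosure ({(io C (pb l)) ^ m} : Set (FF G Unit)) ≤ rt.ker := by
      apply Subgroup.normalClosure_le_normal
      intro y hy
      rw [Set.mem_singleton_iff] at hy
      subst hy
      exact h4
    have h6 := h5 hx
    rw [MonoidHom.mem_ker] at h6
    simpa [rt, hh] using h6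
  · have : NeZero d := ⟨by omega⟩
    have : Fact (1 < d) := ⟨by omega⟩
    let f : ZMod d → Bool × C := fun i => g i.val
    have hf : ∀ j : ℕ, f (j : ZMod d) = g j := by
      intro j
      simp only [f, ZMod.val_natCast]
      have h1 := hmul d hd2 (j / d) (j % d)
      have h2 : j % d + (j / d) * d = j := by
        have := Nat.mod_add_div j d
        rw [mul_comm]; exact this
      rw [h2] at h1
      exact h1.symm
    obtain ⟨q, hq⟩ := hdvd
    have hqpos : 0 < q := by
      rcases Nat.eq_zero_or_pos q with h | h
      · rw [h] at hq; omega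
      · exact h
    have hrel : ((List.range ((m * q) * d)).map fun j : ℕ =>
          (tB (f (j : ZMod d)).1 * hh ((f (j : ZMod d)).2 : G) : FF G Unit)).prod =
        (io C (pb l)) ^ m := by
      rw [← hprod]
      have e1 : (m * q) * d = m * n := by rw [hq]; ring
      rw [e1]
      congr 1
      apply List.map_congr_left
      intro j _
      rw [hf, io_bv]
    rw [← hrel] at hx
    refine thmC' C hLO hd3 (fun i => (f i).1) (fun i => (f i).2) ?_ ?_ (m * q)
      (Nat.mul_pos hm hqpos) x hx
    · rintro i ⟨h1, h2⟩
      have h3 : f (i + 1) = g (i.val + 1) := by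
        have h4 : ((i.val + 1 : ℕ) : ZMod d) = i + 1 := by
          push_cast; rw [ZMod.natCast_val, ZMod.cast_id]
        rw [← h4, hf]
      rw [h3] at h2
      exact hg i.val ⟨h1, h2⟩
    · intro δ hδ hcon
      have hδ1 : 0 < δ.val := by
        rw [Nat.pos_iff_ne_zero, Ne, ZMod.val_eq_zero]; exact hδ
      refine hmin δ.val (ZMod.val_lt δ) ⟨hδ1, ?_⟩
      intro j
      have h1 := hcon (j : ZMod d)
      have h2 : ((j + δ.val : ℕ) : ZMod d) = (j : ZMod d) + δ := by
        push_cast; rw [ZMod.natCast_val, ZMod.cast_id]
      rw [← hf, ← hf, h2]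
      exact Prod.ext h1.2 h1.1

/-- equations with coefficients in a left orderable subgroup are soluble -/
theorem main (hLO : ∃ _ : LinearOrder C, ∀ c a b : C, a < b → c * a < c * b)
    (w : FF C Unit) (hw : ∀ (g : FF C Unit) (a : C), w ≠ g * Coprod.inl a * g⁻¹)
    (m : ℕ) (hm : 1 ≤ m) :
    Function.Injective
      ((QuotientGroup.mk' (Subgroup.normalClosure ({(io C w) ^ m} : Set (FF G Unit)))).comp
        (Coprod.inl : G →* FF G Unit)) := by
  obtain ⟨l, hl1, ⟨c, hc⟩, hl3⟩ := exists_short w hw
  have hmap : Subgroup.normalClosure ({(io C w) ^ m} : Set (FF G Unit)) ≤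
      Subgroup.normalClosure ({(io C (pb l)) ^ m} : Set (FF G Unit)) := by
    apply Subgroup.normalClosure_le_normal
    intro y hy
    rw [Set.mem_singleton_iff] at hy
    subst hy
    rw [SetLike.mem_coe, hc, map_mul, map_mul, map_inv, conj_pow]
    exact Subgroup.normalClosure_normal.conj_mem _
      (Subgroup.subset_normalClosure (Set.mem_singleton _)) _
  rw [injective_iff_map_eq_one]
  intro a ha
  have h3 : (Coprod.inl a : FF G Unit) ∈ Subgroup.normalClosure ({(io C w) ^ m} : Set _) := by
    rw [MonoidHom.comp_apply, QuotientGroup.mk'_apply, QuotientGroup.eq_one_iff] at ha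
    exact ha
  exact core' hLO l hl1 hl3 m hm a (hmap h3)

end

end Run7.h847.EQ
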